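import Mathlib

/-!
# A graph on twelve vertices whose IR-graph is the cycle `C_16`

The graph was found by simulated annealing.
-/

set_option autoImplicit false

namespace Pool.Agent.V11205.IRC

/-- adjacency table, row by row as bit masks -/
def row : Fin 12 → ℕ
  | 0 => 2902
  | 1 => 3809
  | 2 => 3705
  | 3 => 3892
  | 4 => 2829
  | 5 => 3470
  | 6 => 3719
  | 7 => 1890
  | 8 => 3769
  | 9 => 479
  | 10 => 494
  | 11 => 383

def adjB (a b : Fin 12) : Bool := (row a).testBit b.val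

/-- the graph -/
def G : SimpleGraph (Fin 12) where
  Adj a b := adjB a b = true
  symm := ⟨by decide⟩
  loopless := ⟨by decide⟩

instance : DecidableRel G.Adj := fun a b => inferInstanceAs (Decidable (adjB a b = true))

/-- irredundant sets -/
def irr (S : Finset (Fin 12)) : Prop :=
  ∀ v ∈ S, ∃ w, (w = v ∨ G.Adj v w) ∧ ∀ u ∈ S, u ≠ v → ¬ (w = u ∨ G.Adj u w)

instance : DecidablePred irr := fun S => by unfold irr; infer_instance

/-- the sixteen irredundant triples, in the order of the cycle -/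
def sets : Fin 16 → Finset (Fin 12) :=
  ![{0, 1, 2},
    {0, 2, 6},
    {2, 4, 6},
    {4, 5, 6},
    {4, 5, 11},
    {3, 5, 11},
    {3, 10, 11},
    {9, 10, 11},
    {6, 9, 10},
    {6, 7, 9},
    {0, 7, 9},
    {0, 3, 7},
    {3, 7, 8},
    {5, 7, 8},
    {1, 5, 8},
    {1, 2, 8}]

lemma sets_card : ∀ i, (sets i).card = 3 := by decide
lemma sets_irr : ∀ i, irr (sets i) := by decide +kernel
lemma sets_inj : ∀ i j, sets i = sets j → i = j := by decide +kernel

/-- closed neighbourhoods as bit masks -/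
def nbm : Fin 12 → ℕ :=
  ![2903, 3811, 3709, 3900, 2845, 3502, 3783, 2018, 4025, 991, 1518, 2431]

lemma nbm_spec : ∀ a w : Fin 12, (nbm a).testBit w.val = true ↔ (w = a ∨ G.Adj a w) := by
  decide +kernel

lemma all_spec : ∀ w : Fin 12, (4095 : ℕ).testBit w.val = true := by decide

lemma irr_mask {S : Finset (Fin 12)} (hS : irr S) {a b c d : Fin 12} (ha : a ∈ S) (hb : b ∈ S)
    (hc : c ∈ S) (hd : d ∈ S) (hab : b ≠ a) (hac : c ≠ a) (had : d ≠ a) :
    nbm a &&& (4095 ^^^ (nbm b ||| (nbm c ||| nbm d))) ≠ 0 := by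
  obtain ⟨w, hw1, hw2⟩ := hS a ha
  have h1 := (nbm_spec a w).2 hw1
  have key : ∀ u ∈ S, u ≠ a → (nbm u).testBit w.val = false := by
    intro u hu hua
    rw [Bool.eq_false_iff]
    intro h
    exact hw2 u hu hua ((nbm_spec u w).1 h)
  have h2 : (nbm a &&& (4095 ^^^ (nbm b ||| (nbm c ||| nbm d)))).testBit w.val = true := by
    rw [Nat.testBit_and, Nat.testBit_xor, Nat.testBit_or, Nat.testBit_or, h1, all_spec w,
      key b hb hab, key c hc hac, key d hd had]
    rfl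
  intro h
  rw [h, Nat.zero_testBit] at h2
  exact Bool.false_ne_true h2

lemma mask4 : ∀ a b : Fin 12, b ≠ a → ∀ c, c ≠ a ∧ c ≠ b → ∀ d, d ≠ a ∧ d ≠ b ∧ d ≠ c →
    nbm a &&& (4095 ^^^ (nbm b ||| (nbm c ||| nbm d))) = 0 ∨
    nbm b &&& (4095 ^^^ (nbm a ||| (nbm c ||| nbm d))) = 0 ∨
    nbm c &&& (4095 ^^^ (nbm a ||| (nbm b ||| nbm d))) = 0 ∨
    nbm d &&& (4095 ^^^ (nbm a ||| (nbm b ||| nbm c))) = 0 := by
  decide +kernel

lemma mask3 : ∀ a b : Fin 12, b ≠ a → ∀ c, c ≠ a ∧ c ≠ b →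
    nbm a &&& (4095 ^^^ (nbm b ||| (nbm c ||| nbm c))) = 0 ∨
    nbm b &&& (4095 ^^^ (nbm a ||| (nbm c ||| nbm c))) = 0 ∨
    nbm c &&& (4095 ^^^ (nbm a ||| (nbm b ||| nbm b))) = 0 ∨
    ∃ i, sets i = {a, b, c} := by
  decide +kernel

lemma irr_le (T : Finset (Fin 12)) (hT : irr T) : T.card ≤ 3 := by
  by_contra hn
  obtain ⟨a, ha, b, hb, c, hc, hab, hac, hbc⟩ := Finset.two_lt_card.1 (show 2 < T.card by omega)
  obtain ⟨d, hd, hd'⟩ := Finset.exists_mem_notMem_of_card_lt_card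
    (s := ({a, b, c} : Finset (Fin 12))) (t := T)
    (lt_of_le_of_lt Finset.card_le_three (by omega))
  simp only [Finset.mem_insert, Finset.mem_singleton, not_or] at hd'
  obtain ⟨hda, hdb, hdc⟩ := hd'
  rcases mask4 a b hab.symm c ⟨hac.symm, hbc.symm⟩ d ⟨hda, hdb, hdc⟩ with h | h | h | h
  · exact irr_mask hT ha hb hc hd hab.symm hac.symm hda h
  · exact irr_mask hT hb ha hc hd hab hbc.symm hdb h
  · exact irr_mask hT hc ha hb hd hac hbc hdc h
  · exact irr_mask hT hd ha hb hc (Ne.symm hda) (Ne.symm hdb) (Ne.symm hdc) h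

lemma irr_eq (T : Finset (Fin 12)) (hT : irr T) (h3 : 3 ≤ T.card) : ∃ i, sets i = T := by
  obtain ⟨a, b, c, hab, hac, hbc, rfl⟩ := Finset.card_eq_three.1 (le_antisymm (irr_le T hT) h3)
  have ha : a ∈ ({a, b, c} : Finset (Fin 12)) := by simp
  have hb : b ∈ ({a, b, c} : Finset (Fin 12)) := by simp
  have hc : c ∈ ({a, b, c} : Finset (Fin 12)) := by simp
  rcases mask3 a b hab.symm c ⟨hac.symm, hbc.symm⟩ with h | h | h | h
  · exact absurd h (irr_mask hT ha hb hc hc hab.symm hac.symm hac.symm)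
  · exact absurd h (irr_mask hT hb ha hc hc hab hbc.symm hbc.symm)
  · exact absurd h (irr_mask hT hc ha hb hb hac hbc hbc)
  · exact h

end Pool.Agent.V11205.IRC
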